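import Pool.Agent.Helper352.Bed.Main

set_option autoImplicit false

/-! Statements for the rational case of the completeness of `{⌊2^k α⌋} ∪ {⌊2^k β⌋}`
(helper793). `cc`, `SS`, `Seq` are those of `Pool.Agent.Helper352.Bed`. -/

namespace Pool.Agent.Y793.Dy

open Finset
open Pool.Agent.Helper352.Bed

/-- the subset sums of `c` with indices in `P` cover `[lo, lo + w]` with gaps `< D` -/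
def Cov (c : ℕ → ℕ) (P : ℕ → Prop) (D lo : ℕ) (w : ℝ) : Prop :=
  ∀ y : ℕ, lo ≤ y → (y : ℝ) ≤ lo + w → ∃ s, SS c P s ∧ s ≤ y ∧ y < s + D

/-- the indices reserved for the window at `j` -/
def Rsv (Y u j i : ℕ) : Prop :=
  i = 2 * j ∨ (∃ k < u, Y.testBit k = true ∧ i = 2 * (j + k) + 1) ∨
    i = 2 * (j + u) ∨ i = 2 * (j + u) + 1

def S_FINE : Prop :=
  ∀ (p q R L D lo : ℕ) (θ w : ℝ) (P : ℕ → Prop), p.Coprime q → 2 ≤ p → p < q → 1 ≤ θ →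
    2 * (p + q + 2 * p * q) ≤ 2 ^ R → 2 ≤ θ * 2 ^ L → (∀ i, P i → i < 2 * L) →
    θ * 2 ^ L + 2 * R ≤ w → Cov (cc (p * θ) (q * θ)) P D lo w →
    ∃ lo' : ℕ, Cov (cc (p * θ) (q * θ)) (fun i => P i ∨ (2 * L ≤ i ∧ i < 2 * (L + R))) D lo'
      (((p : ℝ) + q - 1 / 2) * (θ * 2 ^ (L + R)))

def S_PLAIN : Prop :=
  ∀ (p q L n D lo : ℕ) (θ : ℝ) (P : ℕ → Prop), 2 ≤ p → p < q → 1 ≤ θ → 4 ≤ θ * 2 ^ L →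
    (∀ i, P i → i < 2 * L) →
    Cov (cc (p * θ) (q * θ)) P D lo (((p : ℝ) + q - 1 / 2) * (θ * 2 ^ L)) →
    Cov (cc (p * θ) (q * θ)) (fun i => P i ∨ (2 * L ≤ i ∧ i < 2 * (L + n))) D lo
      (((p : ℝ) + q - 1 / 2) * (θ * 2 ^ (L + n)))

def S_WIN : Prop :=
  ∀ (p q u Y R j D lo : ℕ) (θ : ℝ) (P : ℕ → Prop), 2 ≤ p → p < q → q + 1 ≤ 2 * p → 1 ≤ u →
    p + q * Y = p * 2 ^ u → Y < 2 ^ u → 1 ≤ θ → (4 * u + 4 * R + 4 : ℝ) ≤ θ * 2 ^ j →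
    (∀ i, P i → i < 2 * j) →
    Cov (cc (p * θ) (q * θ)) P D lo (((p : ℝ) + q - 1 / 2) * (θ * 2 ^ j)) →
    Cov (cc (p * θ) (q * θ)) (fun i => P i ∨ (2 * j ≤ i ∧ i < 2 * (j + u + 1) ∧ ¬ Rsv Y u j i))
      D lo (θ * 2 ^ (j + u + 1) + 2 * R)

def S_PAIR : Prop :=
  ∀ (p q u Y : ℕ) (θ : ℝ), 2 ≤ p → p < q → 1 ≤ u → p + q * Y = p * 2 ^ u → Y < 2 ^ u →
    Y.testBit (u - 1) = true → 1 ≤ θ → (∀ k n : ℕ, (2 : ℝ) ^ k * (q * θ) ≠ n) →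
    ∀ X G : ℕ, u + 1 ≤ G → ∃ j₁ j₂ t : ℕ, X ≤ j₁ ∧ j₁ + G ≤ j₂ ∧
      SS (cc (p * θ) (q * θ)) (fun i => Rsv Y u j₁ i ∨ Rsv Y u j₂ i) t ∧
      SS (cc (p * θ) (q * θ)) (fun i => Rsv Y u j₁ i ∨ Rsv Y u j₂ i) (t + 1)

def S_UY : Prop :=
  ∀ p q : ℕ, 2 ≤ p → p < q → q + 1 ≤ 2 * p → Odd q →
    ∃ u Y : ℕ, 1 ≤ u ∧ p + q * Y = p * 2 ^ u ∧ Y < 2 ^ u ∧ Y.testBit (u - 1) = true

def S_RED : Prop :=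
  ∀ α β : ℝ, 0 < α → 0 < β → ¬ Irrational (α / β) → (∀ m : ℤ, α ≠ (2 : ℝ) ^ m * β) →
    ∃ (p q i j : ℕ) (θ : ℝ), 2 ≤ p ∧ p < q ∧ q + 1 ≤ 2 * p ∧ Odd q ∧ p.Coprime q ∧ 1 ≤ θ ∧
      (((2 : ℝ) ^ i * α = p * θ ∧ (2 : ℝ) ^ j * β = q * θ) ∨
        ((2 : ℝ) ^ i * β = p * θ ∧ (2 : ℝ) ^ j * α = q * θ))

def S_NEG : Prop :=
  ∀ β : ℝ, 0 < β → (∀ k n : ℕ, (2 : ℝ) ^ k * β ≠ n) →
    ¬ ∃ N₀ : ℕ, ∀ n : ℕ, N₀ ≤ n → ∃ s : Finset ℕ,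
      (∀ x ∈ s, 0 < x ∧ ∃ k : ℕ, x = ⌊(2 : ℝ) ^ k * β⌋₊) ∧ ∑ x ∈ s, x = n

end Pool.Agent.Y793.Dy
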