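import Pool.Agent.Y793.Dy.Fin
import Pool.Agent.Y401.Dy.Fine
import Pool.Agent.Y391.Dy.Win
import Pool.Agent.Y975.Dy.Pair
import Pool.Agent.Y975.Dy.Red
import Pool.Agent.Y891.Dy.NEG
import Pool.Agent.Y435.Dy.Fine2
import Pool.Agent.Y409.Dy.Pair2
import Pool.Agent.Y86.Dy.Dya

set_option autoImplicit false

/-! Project DY (helper793), with helper401 (FINE), helper391 (PLAIN, WIN), helper975 (PAIR, UY,
RED), helper891 (NEG), helper435 (FINE2), helper409 (PAIR2), helper86 (DYA). -/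

namespace Pool.Agent.Y793.Dy

open Finset
open Pool.Agent.Helper352.Bed

theorem all_pos (α β : ℝ) (hα : 0 < α) (hβ : 0 < β) (hm : ∀ m : ℤ, α ≠ (2 : ℝ) ^ m * β)
    (hd : (∀ k n : ℕ, (2 : ℝ) ^ k * α ≠ n) ∨ (∀ k n : ℕ, (2 : ℝ) ^ k * β ≠ n)) (F : Finset ℕ) :
    ∃ N₀ : ℕ, ∀ n : ℕ, N₀ ≤ n → Rep α β F n := by
  by_cases hr : Irrational (α / β)
  · exact irr_dir α β hα hβ hr F
  · exact pos_dir Pool.Agent.Y401.Dy.t_FINE Pool.Agent.Y435.Dy.t_FINE2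
      Pool.Agent.Y391.Dy.t_PLAIN Pool.Agent.Y391.Dy.t_WIN Pool.Agent.Y975.Dy.t_PAIR
      Pool.Agent.Y409.Dy.t_PAIR2 Pool.Agent.Y975.Dy.t_UY Pool.Agent.Y975.Dy.t_RED α β hα hβ hr hm
      hd F

theorem all_neg (α β : ℝ) (hα : 0 < α) (hβ : 0 < β) (m : ℤ) (hm : α = (2 : ℝ) ^ m * β)
    (hd : (∀ k n : ℕ, (2 : ℝ) ^ k * α ≠ n) ∨ (∀ k n : ℕ, (2 : ℝ) ^ k * β ≠ n)) :
    ¬ ∃ N₀ : ℕ, ∀ n : ℕ, N₀ ≤ n → Rep α β ∅ n := by
  obtain ⟨h1, h2⟩ := both_nd α β m hm hd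
  exact neg_dir Pool.Agent.Y891.Dy.t_NEG α β hα hβ h1 h2 m hm

/-- an irrational ratio is not a ratio of two dyadic numbers and not a power of two -/
theorem irr_imp (α β : ℝ) (hβ : 0 < β) (hirr : Irrational (α / β)) :
    (∀ m : ℤ, α ≠ (2 : ℝ) ^ m * β) ∧
      ((∀ k n : ℕ, (2 : ℝ) ^ k * α ≠ n) ∨ (∀ k n : ℕ, (2 : ℝ) ^ k * β ≠ n)) := by
  constructor
  · intro m h
    apply hirr
    refine ⟨(2 : ℚ) ^ m, ?_⟩
    push_cast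
    rw [h, mul_div_cancel_right₀ _ hβ.ne']
  · by_contra hc
    push Not at hc
    obtain ⟨⟨k, n, h1⟩, ⟨l, n', h2⟩⟩ := hc
    apply hirr
    refine ⟨((n : ℚ) / 2 ^ k) / ((n' : ℚ) / 2 ^ l), ?_⟩
    push_cast
    rw [← h1, ← h2]
    field_simp

end Pool.Agent.Y793.Dy
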