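import Pool.Agent.Helper352.Bed.Main

set_option autoImplicit false

namespace Pool.Agent.Y793.Dy

open Finset
open Pool.Agent.Helper352.Bed

/-- If close pairs `q, q+1` of high sums are available, then the sequence is strongly complete:
every tail is complete (variant of `Seq.complete_of_pairs` of helper352). -/
theorem strong_of_pairs {c : ℕ → ℕ} (h : Seq c)
    (hp : ∀ W : ℕ, ∃ M N1 : ℕ, ∀ N ≥ N1, ∃ q, SS c (fun i => M ≤ i) q ∧
      SS c (fun i => M ≤ i) (q + 1) ∧ q + W ≤ N ∧ N + W < q + c M) :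
    ∀ I : ℕ, ∃ N0, ∀ n ≥ N0, SS c (fun i => I ≤ i) n := by
  classical
  intro I
  have hex : ∃ g, ∃ N0, ∀ x ≥ N0, ∃ s, SS c (fun i => I ≤ i) s ∧ x ≤ s ∧ s < x + g := by
    refine ⟨c (I + 1), 0, fun x _ => ?_⟩
    obtain ⟨S, hS, h1, h2⟩ := h.gaps I (x + c (I + 1) - 1)
    have h3 := h.pos' (I + 1)
    exact ⟨∑ i ∈ S, c i, ⟨S, hS, rfl⟩, by omega, by omega⟩
  obtain ⟨N0, hN0⟩ := Nat.find_spec hex
  set g := Nat.find hex with hg
  have hg0 : g ≠ 0 := by
    intro h0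
    obtain ⟨s, -, h1, h2⟩ := hN0 N0 le_rfl
    omega
  by_cases hg1 : g = 1
  · refine ⟨N0, fun n hn => ?_⟩
    obtain ⟨s, hs, h1, h2⟩ := hN0 n hn
    have : s = n := by omega
    rwa [this] at hs
  exfalso
  have hmin := Nat.find_min hex (m := g - 1) (by omega)
  push Not at hmin
  obtain ⟨M, N1, hM⟩ := hp (N0 + g + 1 + c I)
  obtain ⟨N, hN, hbad⟩ := hmin N1
  obtain ⟨q, hq, hq1, h1, h2⟩ := hM N hN
  have hIM : I < M := h.mono.lt_iff_lt.1 (by omega)
  -- window of g integers N - q - 1, ..., N - q + g - 2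
  obtain ⟨s, hs, h3, h4⟩ := hN0 (N - q - 1) (by omega)
  have hs' : SS c (fun i => I ≤ i ∧ i < M) s := by
    obtain ⟨S, hS0, hS⟩ := hs
    refine ⟨S, ?_, hS⟩
    intro i hi
    refine ⟨hS0 i hi, ?_⟩
    by_contra hc
    push Not at hc
    have h5 : c i ≤ s := by
      rw [← hS]
      exact single_le_sum (f := c) (fun _ _ => Nat.zero_le _) hi
    have h6 := h.mono.monotone hc
    omega
  by_cases h5 : s = N - q - 1
  · -- s + (q+1) = N
    have h6 := (SS.add (fun i hi => by omega) hs' hq1).mono (Q := fun i => I ≤ i)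
      (fun i hi => by omega)
    have h7 := hbad (s + (q + 1)) h6 (by omega)
    omega
  · have h6 := (SS.add (fun i hi => by omega) hs' hq).mono (Q := fun i => I ≤ i)
      (fun i hi => by omega)
    have h7 := hbad (s + q) h6 (by omega)
    omega

theorem strong_of_vec {c : ℕ → ℕ} (h : Seq c)
    (hp : ∀ W : ℕ, ∃ M K t D X0 : ℕ, SS c (fun i => M ≤ i ∧ i < K) t ∧
      SS c (fun i => M ≤ i ∧ i < K) (t + 1) ∧
      (∀ x ≥ X0, ∃ s, SS c (fun i => K ≤ i) s ∧ s ≤ x ∧ x < s + D) ∧ M ≤ K ∧ D + 2 * W ≤ c M) :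
    ∀ I : ℕ, ∃ N0, ∀ n ≥ N0, SS c (fun i => I ≤ i) n := by
  apply strong_of_pairs h
  intro W
  obtain ⟨M, K, t, D, X0, h1, h2, h3, hMK, h4⟩ := hp W
  refine ⟨M, X0 + W + t, fun N hN => ?_⟩
  obtain ⟨s, hs, h5, h6⟩ := h3 (N - W - t) (by omega)
  refine ⟨t + s, ?_, ?_, by omega, by omega⟩
  · exact (SS.add (fun i hi => by omega) h1 hs).mono (fun i hi => by omega)
  · have := (SS.add (fun i hi => by omega) h2 hs).mono (Q := fun i => M ≤ i) (fun i hi => by omega)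
    rwa [show t + s + 1 = t + 1 + s by ring]

end Pool.Agent.Y793.Dy
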