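import Pool.Agent.Y793.Dy.Stm
import Pool.Agent.Y793.Dy.Str

set_option autoImplicit false

namespace Pool.Agent.Y793.Dy

open Finset
open Pool.Agent.Helper352.Bed

theorem rsv_range {Y u j i : ℕ} (h : Rsv Y u j i) : 2 * j ≤ i ∧ i < 2 * (j + u + 1) := by
  rcases h with h | ⟨k, hk, -, h⟩ | h | h <;> omega

theorem Cov.mono {c : ℕ → ℕ} {P Q : ℕ → Prop} {D lo : ℕ} {w w' : ℝ} (h : Cov c P D lo w)
    (hPQ : ∀ i, P i → Q i) (hw : w' ≤ w) : Cov c Q D lo w' := by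
  intro y hy1 hy2
  obtain ⟨s, hs, h1, h2⟩ := h y hy1 (by linarith)
  exact ⟨s, hs.mono hPQ, h1, h2⟩

theorem cov_init (c : ℕ → ℕ) (D : ℕ) (w : ℝ) (hw : w + 1 ≤ D) :
    Cov c (fun _ => False) D 0 w := by
  intro y _ hy
  refine ⟨0, ⟨∅, by simp, by simp⟩, Nat.zero_le _, ?_⟩
  have : (y : ℝ) < D := by
    push_cast at hy
    linarith
  have : y < D := by exact_mod_cast this
  omega

theorem key (hF : S_FINE) (hP : S_PLAIN) (hW : S_WIN) (hPair : S_PAIR) (p q u Y : ℕ) (θ : ℝ)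
    (h2 : 2 ≤ p) (hpq : p < q) (hqp : q + 1 ≤ 2 * p) (hc : p.Coprime q) (hu : 1 ≤ u)
    (hY : p + q * Y = p * 2 ^ u) (hYu : Y < 2 ^ u) (hbit : Y.testBit (u - 1) = true)
    (hθ : 1 ≤ θ) (hnd : ∀ k n : ℕ, (2 : ℝ) ^ k * (q * θ) ≠ n) :
    ∀ I : ℕ, ∃ N0, ∀ n ≥ N0, SS (cc (p * θ) (q * θ)) (fun i => I ≤ i) n := by
  have h2' : (2 : ℝ) ≤ p := by exact_mod_cast h2
  have hpq' : (p : ℝ) + 1 ≤ q := by exact_mod_cast hpq
  have hqp' : (q : ℝ) + 1 ≤ 2 * p := by exact_mod_cast hqp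
  have hS : Seq (cc (p * θ) (q * θ)) :=
    seq_cc (by nlinarith) (by nlinarith) (by nlinarith)
  apply strong_of_pairs hS
  intro W
  set c := cc (p * θ) (q * θ) with hcdef
  set R := 2 * (p + q + 2 * p * q) with hR
  have hR2 : 2 * (p + q + 2 * p * q) ≤ 2 ^ R := Nat.lt_two_pow_self.le
  set K0 := 4 * u + 4 * R + 2 * W + 10 with hK0
  have hbig : ∀ k ≥ K0, (K0 : ℝ) ≤ θ * 2 ^ k := by
    intro k hk
    have e1 : K0 ≤ 2 ^ k := hk.trans Nat.lt_two_pow_self.le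
    have e2 : (K0 : ℝ) ≤ 2 ^ k := by exact_mod_cast e1
    have e3 : (0 : ℝ) ≤ 2 ^ k := by positivity
    nlinarith
  have hK0' : (K0 : ℝ) = 4 * u + 4 * R + 2 * W + 10 := by rw [hK0]; push_cast; ring
  obtain ⟨j₁, j₂, t, hj₁, hj₂, ht, ht1⟩ :=
    hPair p q u Y θ h2 hpq hu hY hYu hbit hθ hnd (K0 + R) (u + 1 + R) (by omega)
  obtain ⟨K, rfl⟩ : ∃ K, j₁ = K + R := ⟨j₁ - R, by omega⟩
  have hKK : K0 ≤ K := by omega
  obtain ⟨g, rfl⟩ : ∃ g, j₂ = K + R + u + 1 + R + g := ⟨j₂ - (K + R + u + 1 + R), by omega⟩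
  have u0 : (0 : ℝ) ≤ u := Nat.cast_nonneg _
  have R0 : (0 : ℝ) ≤ R := Nat.cast_nonneg _
  have W0 : (0 : ℝ) ≤ W := Nat.cast_nonneg _
  set D := ⌈θ * 2 ^ K⌉₊ + 2 * R + 1 with hD
  have hDlo : θ * 2 ^ K + 2 * R + 1 ≤ (D : ℝ) := by
    rw [hD]; push_cast
    have := Nat.le_ceil (θ * 2 ^ K)
    linarith
  have hDhi : (D : ℝ) ≤ θ * 2 ^ K + 2 * R + 2 := by
    rw [hD]; push_cast
    have := (Nat.ceil_lt_add_one (a := θ * 2 ^ K) (by positivity)).le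
    linarith
  have c0 : Cov c (fun _ => False) D 0 (θ * 2 ^ K + 2 * R) := cov_init c D _ (by linarith)
  have r1 : ∀ i, Rsv Y u (K + R) i → 2 * (K + R) ≤ i ∧ i < 2 * (K + R + u + 1) :=
    fun i => rsv_range
  have r2 : ∀ i, Rsv Y u (K + R + u + 1 + R + g) i → 2 * (K + R + u + 1 + R + g) ≤ i ∧
      i < 2 * (K + R + u + 1 + R + g + u + 1) := fun i => rsv_range
  obtain ⟨Q, hQ⟩ : ∃ Q : ℕ → ℕ → Prop, ∀ n i, Q n i ↔ (2 * K ≤ i ∧ i < n ∧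
      ¬ Rsv Y u (K + R) i ∧ ¬ Rsv Y u (K + R + u + 1 + R + g) i) := ⟨_, fun _ _ => Iff.rfl⟩
  have hQlt : ∀ n i, Q n i → i < n := fun n i h => ((hQ n i).1 h).2.1
  have mm : ∀ (n n' : ℕ) (T : ℕ → Prop), 2 * K ≤ n → n ≤ n' →
      (∀ i, T i → n ≤ i ∧ i < n' ∧ ¬ Rsv Y u (K + R) i ∧
        ¬ Rsv Y u (K + R + u + 1 + R + g) i) → ∀ i, (Q n i ∨ T i) → Q n' i := by
    intro n n' T h1 h2 h3 i hi
    rw [hQ]
    rcases hi with hi | hi
    · rw [hQ] at hi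
      exact ⟨hi.1, by omega, hi.2.2.1, hi.2.2.2⟩
    · have := h3 i hi
      exact ⟨by omega, this.2.1, this.2.2.1, this.2.2.2⟩
  have n1 : ∀ i, ¬ (2 * (K + R) ≤ i ∧ i < 2 * (K + R + u + 1)) → ¬ Rsv Y u (K + R) i :=
    fun i h h' => h (r1 i h')
  have n2 : ∀ i, ¬ (2 * (K + R + u + 1 + R + g) ≤ i ∧
      i < 2 * (K + R + u + 1 + R + g + u + 1)) → ¬ Rsv Y u (K + R + u + 1 + R + g) i :=
    fun i h h' => h (r2 i h')
  obtain ⟨lo1, c1'⟩ := hF p q R K D 0 θ _ _ hc h2 hpq hθ hR2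
    (by have := hbig K hKK; linarith) (fun i hi => hi.elim) le_rfl c0
  have c1 := c1'.mono (Q := Q (2 * (K + R))) (fun i hi => by
    rcases hi with hi | hi
    · exact hi.elim
    · rw [hQ]
      exact ⟨hi.1, hi.2, n1 i (by omega), n2 i (by omega)⟩) le_rfl
  have c2 := (hW p q u Y R (K + R) D lo1 θ _ h2 hpq hqp hu hY hYu hθ
    (by have := hbig (K + R) (by omega); linarith) (hQlt _) c1).mono
    (Q := Q (2 * (K + R + u + 1))) (mm _ _ _ (by omega) (by omega) (fun i hi =>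
      ⟨hi.1, hi.2.1, hi.2.2, n2 i (by omega)⟩)) le_rfl
  obtain ⟨lo2, c3'⟩ := hF p q R (K + R + u + 1) D lo1 θ _ _ hc h2 hpq hθ hR2
    (by have := hbig (K + R + u + 1) (by omega); linarith) (hQlt _) le_rfl c2
  have c3 := c3'.mono (Q := Q (2 * (K + R + u + 1 + R)))
    (mm _ _ _ (by omega) (by omega) (fun i hi =>
      ⟨hi.1, hi.2, n1 i (by omega), n2 i (by omega)⟩)) le_rfl
  have c4 := (hP p q (K + R + u + 1 + R) g D lo2 θ _ h2 hpq hθ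
    (by have := hbig (K + R + u + 1 + R) (by omega); linarith) (hQlt _) c3).mono
    (Q := Q (2 * (K + R + u + 1 + R + g)))
    (mm _ _ _ (by omega) (by omega) (fun i hi =>
      ⟨hi.1, hi.2, n1 i (by omega), n2 i (by omega)⟩)) le_rfl
  have c5 := (hW p q u Y R (K + R + u + 1 + R + g) D lo2 θ _ h2 hpq hqp hu hY hYu hθ
    (by have := hbig (K + R + u + 1 + R + g) (by omega); linarith) (hQlt _) c4).mono
    (Q := Q (2 * (K + R + u + 1 + R + g + u + 1)))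
    (mm _ _ _ (by omega) (by omega) (fun i hi =>
      ⟨hi.1, hi.2.1, n1 i (by omega), hi.2.2⟩)) le_rfl
  obtain ⟨lo3, c6'⟩ := hF p q R (K + R + u + 1 + R + g + u + 1) D lo2 θ _ _ hc h2 hpq hθ hR2
    (by have := hbig (K + R + u + 1 + R + g + u + 1) (by omega); linarith)
    (hQlt _) le_rfl c5
  have c6 := c6'.mono (Q := Q (2 * (K + R + u + 1 + R + g + u + 1 + R)))
    (mm _ _ _ (by omega) (by omega) (fun i hi =>
      ⟨hi.1, hi.2, n1 i (by omega), n2 i (by omega)⟩)) le_rfl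
  obtain ⟨L, hL⟩ : ∃ L, L = K + R + u + 1 + R + g + u + 1 + R := ⟨_, rfl⟩
  rw [← hL] at c6
  refine ⟨2 * K, lo3 + W + t, fun N hN => ?_⟩
  have c7 := (hP p q L N D lo3 θ _ h2 hpq hθ
    (by have := hbig L (by omega); linarith) (hQlt _) c6).mono
    (Q := Q (2 * (L + N))) (mm _ _ _ (by omega) (by omega) (fun i hi =>
      ⟨hi.1, hi.2, n1 i (by omega), n2 i (by omega)⟩)) le_rfl
  obtain ⟨s, hs, hs1, hs2⟩ := c7 (N - W - t) (by omega) (by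
    have e1 : N ≤ 2 ^ (L + N) := (by omega : N ≤ L + N).trans Nat.lt_two_pow_self.le
    have e2 : (N : ℝ) ≤ 2 ^ (L + N) := by exact_mod_cast e1
    have e3 : ((N - W - t : ℕ) : ℝ) ≤ N := by exact_mod_cast (by omega : N - W - t ≤ N)
    have e4 : (0 : ℝ) ≤ lo3 := Nat.cast_nonneg _
    have e5 : (0 : ℝ) ≤ 2 ^ (L + N) := by positivity
    have e6 : (2 : ℝ) ^ (L + N) ≤ ((p : ℝ) + q - 1 / 2) * (θ * 2 ^ (L + N)) := by
      have e7 : (2 : ℝ) ^ (L + N) ≤ θ * 2 ^ (L + N) := by nlinarith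
      have e8 : (1 : ℝ) ≤ (p : ℝ) + q - 1 / 2 := by linarith
      nlinarith
    linarith)
  have hsP : SS c (fun i => 2 * K ≤ i ∧ ¬ Rsv Y u (K + R) i ∧
      ¬ Rsv Y u (K + R + u + 1 + R + g) i) s :=
    hs.mono fun i hi => by
      rw [hQ] at hi
      exact ⟨hi.1, hi.2.2⟩
  have hsub : ∀ i, ((Rsv Y u (K + R) i ∨ Rsv Y u (K + R + u + 1 + R + g) i) ∨
      (2 * K ≤ i ∧ ¬ Rsv Y u (K + R) i ∧ ¬ Rsv Y u (K + R + u + 1 + R + g) i)) → 2 * K ≤ i := by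
    intro i hi
    rcases hi with (hi | hi) | hi
    · have := rsv_range hi; omega
    · have := rsv_range hi; omega
    · exact hi.1
  have hdis : ∀ i, (Rsv Y u (K + R) i ∨ Rsv Y u (K + R + u + 1 + R + g) i) →
      ¬ (2 * K ≤ i ∧ ¬ Rsv Y u (K + R) i ∧ ¬ Rsv Y u (K + R + u + 1 + R + g) i) := by
    intro i hi; tauto
  have hcK : D + 2 * W ≤ c (2 * K) := by
    rw [hcdef, cc_even]
    apply Nat.le_floor
    push_cast
    have e1 := hbig K hKK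
    have e2 : (2 : ℝ) ^ K * (p * θ) = p * (θ * 2 ^ K) := by ring
    rw [e2]
    have e3 : 2 * (θ * 2 ^ K) ≤ p * (θ * 2 ^ K) := by
      apply mul_le_mul_of_nonneg_right h2' (by positivity)
    linarith
  refine ⟨t + s, (SS.add hdis ht hsP).mono hsub, ?_, by omega, by omega⟩
  have := (SS.add hdis ht1 hsP).mono hsub
  rwa [show t + s + 1 = t + 1 + s by ring]

end Pool.Agent.Y793.Dy
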