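import Pool.Agent.Y793.Dy.Asm2

set_option autoImplicit false

/-! Final steps (helper793). `reduction` is copied from the starting file `CompleteDyadic`
(helper352). -/

namespace Pool.Agent.Y793.Dy

open Finset
open Pool.Agent.Helper352.Bed

theorem reduction (α β : ℝ) (hα : 0 < α) (hβ : 0 < β) (hirr : Irrational (α / β)) :
    ∃ i j : ℕ, 1 ≤ 2 ^ i * α ∧ 2 ^ i * α + 1 ≤ 2 ^ j * β ∧
      2 ^ j * β + 1 ≤ 2 * (2 ^ i * α) := by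
  obtain ⟨l, hl⟩ := pow_unbounded_of_one_lt (α / β) (one_lt_two : (1 : ℝ) < 2)
  have hl' : α < 2 ^ l * β := by rwa [div_lt_iff₀ hβ] at hl
  have hx : 1 ≤ 2 ^ l * β / α := by rw [le_div_iff₀ hα]; linarith
  obtain ⟨n, hn1, hn2⟩ := exists_nat_pow_near hx (one_lt_two : (1 : ℝ) < 2)
  rw [le_div_iff₀ hα] at hn1
  rw [div_lt_iff₀ hα] at hn2
  have hne : (2 : ℝ) ^ n * α ≠ 2 ^ l * β := by
    intro h
    apply hirr
    refine ⟨(2 : ℚ) ^ l / 2 ^ n, ?_⟩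
    push_cast
    rw [div_eq_div_iff (by positivity) hβ.ne']
    linarith
  have hlt : (2 : ℝ) ^ n * α < 2 ^ l * β := lt_of_le_of_ne hn1 hne
  set d := min (2 ^ l * β - 2 ^ n * α) (min (2 ^ (n + 1) * α - 2 ^ l * β) α) with hd
  have hdpos : 0 < d := lt_min (by linarith) (lt_min (by linarith) hα)
  have hd1 : d ≤ 2 ^ l * β - 2 ^ n * α := min_le_left _ _
  have hd2 : d ≤ 2 ^ (n + 1) * α - 2 ^ l * β := (min_le_right _ _).trans (min_le_left _ _)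
  have hd3 : d ≤ α := (min_le_right _ _).trans (min_le_right _ _)
  obtain ⟨M, hM⟩ := pow_unbounded_of_one_lt (1 / d) (one_lt_two : (1 : ℝ) < 2)
  rw [div_lt_iff₀ hdpos] at hM
  have hMpos : (0 : ℝ) < 2 ^ M := by positivity
  have e1 := mul_le_mul_of_nonneg_left hd1 hMpos.le
  have e2 := mul_le_mul_of_nonneg_left hd2 hMpos.le
  have e3 := mul_le_mul_of_nonneg_left hd3 hMpos.le
  have hn3 : (1 : ℝ) ≤ 2 ^ n := one_le_pow₀ (by norm_num)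
  refine ⟨n + M, l + M, ?_, ?_, ?_⟩
  · rw [pow_add]
    have : (1 : ℝ) * (2 ^ M * α) ≤ 2 ^ n * (2 ^ M * α) := by gcongr
    linarith
  · rw [pow_add, pow_add]
    linarith
  · rw [pow_add, pow_add]
    rw [pow_succ] at e2
    linarith

/-- representable by distinct positive elements outside of `F` -/
def Rep (α β : ℝ) (F : Finset ℕ) (n : ℕ) : Prop :=
  ∃ s : Finset ℕ, (∀ x ∈ s, 0 < x ∧
    ((∃ k : ℕ, x = ⌊(2 : ℝ) ^ k * α⌋₊) ∨ (∃ k : ℕ, x = ⌊(2 : ℝ) ^ k * β⌋₊)) ∧ x ∉ F) ∧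
    ∑ x ∈ s, x = n

theorem of_cc {α β : ℝ} (i j : ℕ) (a b : ℝ) (h1 : (2 : ℝ) ^ i * α = a)
    (h2 : (2 : ℝ) ^ j * β = b) (hS : Seq (cc a b))
    (h : ∀ I : ℕ, ∃ N0, ∀ n ≥ N0, SS (cc a b) (fun i => I ≤ i) n) (F : Finset ℕ) :
    ∃ N₀ : ℕ, ∀ n : ℕ, N₀ ≤ n → Rep α β F n := by
  obtain ⟨N₀, hN₀⟩ := h (F.sup id + 1)
  refine ⟨N₀, fun n hn => ?_⟩
  obtain ⟨S, hS0, hS'⟩ := hN₀ n hn
  refine ⟨S.image (cc a b), ?_, ?_⟩
  · intro x hx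
    rw [mem_image] at hx
    obtain ⟨m, hm, rfl⟩ := hx
    refine ⟨hS.pos' m, ?_, ?_⟩
    · rcases Nat.even_or_odd' m with ⟨k, rfl | rfl⟩
      · left
        refine ⟨k + i, ?_⟩
        rw [cc_even, ← h1, pow_add, mul_assoc]
      · right
        refine ⟨k + j, ?_⟩
        rw [cc_odd, ← h2, pow_add, mul_assoc]
    · intro hF
      have e1 : cc a b m ≤ F.sup id := le_sup (f := id) hF
      have e2 := hS0 m hm
      have e3 : m ≤ cc a b m := hS.mono.le_apply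
      omega
  · rw [sum_image (by intro a _ b _ hab; exact hS.mono.injective hab)]
    exact hS'

theorem Rep.symm {α β : ℝ} {F : Finset ℕ} {n : ℕ} (h : Rep α β F n) : Rep β α F n := by
  obtain ⟨s, hs, hsum⟩ := h
  exact ⟨s, fun x hx => ⟨(hs x hx).1, (hs x hx).2.1.symm, (hs x hx).2.2⟩, hsum⟩

theorem irr_dir (α β : ℝ) (hα : 0 < α) (hβ : 0 < β) (hirr : Irrational (α / β)) (F : Finset ℕ) :
    ∃ N₀ : ℕ, ∀ n : ℕ, N₀ ≤ n → Rep α β F n := by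
  obtain ⟨i, j, h1, h2, h3⟩ := reduction α β hα hβ hirr
  have hirr' : Irrational (2 ^ i * α / (2 ^ j * β)) := by
    have h4 : 2 ^ i * α / (2 ^ j * β) = (((2 : ℚ) ^ i / 2 ^ j : ℚ) : ℝ) * (α / β) := by
      push_cast
      field_simp
    rw [h4]
    exact hirr.ratCast_mul (by positivity)
  have hseq := seq_cc h1 h2 h3
  exact of_cc i j _ _ rfl rfl hseq (strong_of_vec hseq (Pool.Agent.Helper352.Bed.key h1 h2 h3 hirr'))
    F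

theorem pos_dir (hF : S_FINE) (hF2 : S_FINE2) (hP : S_PLAIN) (hW : S_WIN) (hPair : S_PAIR)
    (hPair2 : S_PAIR2) (hUY : S_UY) (hRed : S_RED) (α β : ℝ) (hα : 0 < α) (hβ : 0 < β)
    (hr : ¬ Irrational (α / β)) (hm : ∀ m : ℤ, α ≠ (2 : ℝ) ^ m * β)
    (hd : (∀ k n : ℕ, (2 : ℝ) ^ k * α ≠ n) ∨ (∀ k n : ℕ, (2 : ℝ) ^ k * β ≠ n)) (F : Finset ℕ) :
    ∃ N₀ : ℕ, ∀ n : ℕ, N₀ ≤ n → Rep α β F n := by
  obtain ⟨p, q, i, j, θ, h2, hpq, hqp, hodd, hc, hθ, h⟩ := hRed α β hα hβ hr hm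
  obtain ⟨u, Y, hu, hY, hYu, hbit⟩ := hUY p q h2 hpq hqp hodd
  have h2' : (2 : ℝ) ≤ p := by exact_mod_cast h2
  have hpq' : (p : ℝ) + 1 ≤ q := by exact_mod_cast hpq
  have hqp' : (q : ℝ) + 1 ≤ 2 * p := by exact_mod_cast hqp
  have hS : Seq (cc (p * θ) (q * θ)) :=
    seq_cc (by nlinarith) (by nlinarith) (by nlinarith)
  have main : ((∀ k n : ℕ, (2 : ℝ) ^ k * (p * θ) ≠ n) ∨ (∀ k n : ℕ, (2 : ℝ) ^ k * (q * θ) ≠ n)) →
      ∀ I : ℕ, ∃ N0, ∀ n ≥ N0, SS (cc (p * θ) (q * θ)) (fun i => I ≤ i) n := by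
    rintro (h | h)
    · exact key2 hF hF2 hP hW hPair2 p q u Y θ h2 hpq hqp hc hu hY hYu hodd hθ h
    · exact key hF hP hW hPair p q u Y θ h2 hpq hqp hc hu hY hYu hbit hθ h
  have tr : ∀ (x y : ℝ) (i : ℕ), (2 : ℝ) ^ i * x = y → (∀ k n : ℕ, (2 : ℝ) ^ k * x ≠ n) →
      ∀ k n : ℕ, (2 : ℝ) ^ k * y ≠ n := by
    intro x y i hxy hx k n h
    apply hx (k + i) n
    rw [pow_add, mul_assoc, hxy, h]
  rcases h with ⟨e1, e2⟩ | ⟨e1, e2⟩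
  · refine of_cc i j _ _ e1 e2 hS (main ?_) F
    rcases hd with hd | hd
    · exact Or.inl (tr _ _ _ e1 hd)
    · exact Or.inr (tr _ _ _ e2 hd)
  · obtain ⟨N₀, hN₀⟩ := of_cc i j _ _ e1 e2 hS (main (by
      rcases hd with hd | hd
      · exact Or.inr (tr _ _ _ e2 hd)
      · exact Or.inl (tr _ _ _ e1 hd))) F
    exact ⟨N₀, fun n hn => (hN₀ n hn).symm⟩

/-- if `α = 2^m β` and one of them is not dyadic, then neither is -/
theorem both_nd (α β : ℝ) (m : ℤ) (hm : α = (2 : ℝ) ^ m * β)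
    (hd : (∀ k n : ℕ, (2 : ℝ) ^ k * α ≠ n) ∨ (∀ k n : ℕ, (2 : ℝ) ^ k * β ≠ n)) :
    (∀ k n : ℕ, (2 : ℝ) ^ k * α ≠ n) ∧ (∀ k n : ℕ, (2 : ℝ) ^ k * β ≠ n) := by
  obtain ⟨d, rfl | rfl⟩ := Int.eq_nat_or_neg m
  · rw [zpow_natCast] at hm
    rcases hd with hd | hd
    · refine ⟨hd, fun k n h => hd k (2 ^ d * n) ?_⟩
      rw [hm]
      push_cast
      rw [← h]
      ring
    · refine ⟨fun k n h => hd (k + d) n ?_, hd⟩
      rw [← h, hm]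
      ring
  · have hm' : β = (2 : ℝ) ^ d * α := by
      rw [hm, zpow_neg, zpow_natCast, ← mul_assoc, mul_inv_cancel₀ (by positivity), one_mul]
    rcases hd with hd | hd
    · refine ⟨hd, fun k n h => hd (k + d) n ?_⟩
      rw [← h, hm']
      ring
    · refine ⟨fun k n h => hd k (2 ^ d * n) ?_, hd⟩
      rw [hm']
      push_cast
      rw [← h]
      ring

theorem neg_dir (hN : S_NEG) (α β : ℝ) (hα : 0 < α) (hβ : 0 < β)
    (hda : ∀ k n : ℕ, (2 : ℝ) ^ k * α ≠ n) (hdb : ∀ k n : ℕ, (2 : ℝ) ^ k * β ≠ n)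
    (m : ℤ) (hm : α = (2 : ℝ) ^ m * β) :
    ¬ ∃ N₀ : ℕ, ∀ n : ℕ, N₀ ≤ n → Rep α β ∅ n := by
  rintro ⟨N₀, h⟩
  obtain ⟨d, rfl | rfl⟩ := Int.eq_nat_or_neg m
  · rw [zpow_natCast] at hm
    apply hN β hβ hdb
    refine ⟨N₀, fun n hn => ?_⟩
    obtain ⟨s, hs, hsum⟩ := h n hn
    refine ⟨s, fun x hx => ⟨(hs x hx).1, ?_⟩, hsum⟩
    rcases (hs x hx).2.1 with ⟨k, hk⟩ | ⟨k, hk⟩
    · exact ⟨k + d, by rw [hk, hm, pow_add, mul_assoc]⟩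
    · exact ⟨k, hk⟩
  · have hm' : β = (2 : ℝ) ^ d * α := by
      rw [hm, zpow_neg, zpow_natCast, ← mul_assoc, mul_inv_cancel₀ (by positivity), one_mul]
    apply hN α hα hda
    refine ⟨N₀, fun n hn => ?_⟩
    obtain ⟨s, hs, hsum⟩ := h n hn
    refine ⟨s, fun x hx => ⟨(hs x hx).1, ?_⟩, hsum⟩
    rcases (hs x hx).2.1 with ⟨k, hk⟩ | ⟨k, hk⟩
    · exact ⟨k, hk⟩
    · exact ⟨k + d, by rw [hk, hm', pow_add, mul_assoc]⟩

/-- two dyadic numbers: not strongly complete -/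
theorem not_strong (α β : ℝ) (k l A B : ℕ) (hA : (2 : ℝ) ^ k * α = A)
    (hB : (2 : ℝ) ^ l * β = B) :
    ∃ F : Finset ℕ, ¬ ∃ N₀ : ℕ, ∀ n : ℕ, N₀ ≤ n → Rep α β F n := by
  refine ⟨(range (k + 1)).image (fun j => ⌊(2 : ℝ) ^ j * α⌋₊) ∪
    (range (l + 1)).image (fun j => ⌊(2 : ℝ) ^ j * β⌋₊), ?_⟩
  rintro ⟨N₀, h⟩
  obtain ⟨s, hs, hsum⟩ := h (2 * N₀ + 1) (by omega)
  have hev : ∀ (γ : ℝ) (k C : ℕ), (2 : ℝ) ^ k * γ = C → ∀ j, k < j → 2 ∣ ⌊(2 : ℝ) ^ j * γ⌋₊ := by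
    intro γ k C hC j hj
    obtain ⟨d, rfl⟩ := Nat.exists_eq_add_of_lt hj
    have e : (2 : ℝ) ^ (k + d + 1) * γ = ((2 * (2 ^ d * C) : ℕ) : ℝ) := by
      push_cast
      rw [← hC]
      ring
    rw [e, Nat.floor_natCast]
    exact ⟨_, rfl⟩
  have h2 : 2 ∣ ∑ x ∈ s, x := by
    apply dvd_sum
    intro x hx
    obtain ⟨-, h1, h2⟩ := hs x hx
    rw [mem_union, mem_image, mem_image] at h2
    push Not at h2
    rcases h1 with ⟨j, rfl⟩ | ⟨j, rfl⟩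
    · apply hev α k A hA
      by_contra hc
      exact h2.1 j (mem_range.2 (by omega)) rfl
    · apply hev β l B hB
      by_contra hc
      exact h2.2 j (mem_range.2 (by omega)) rfl
  omega

end Pool.Agent.Y793.Dy
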