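import Pool.Agent.Y793.Dy.Stm

set_option autoImplicit false

/-! Statements, part 2: `p θ` not dyadic, and both numbers dyadic (helper793). -/

namespace Pool.Agent.Y793.Dy

open Finset
open Pool.Agent.Helper352.Bed

def S_FINE2 : Prop :=
  ∀ (p q R L D lo : ℕ) (θ w : ℝ) (P : ℕ → Prop), p.Coprime q → Odd q → 2 ≤ p → p < q →
    q + 1 ≤ 2 * p → 1 ≤ θ → 2 * (p + q + 2 * p * q) ≤ 2 ^ R → 4 ≤ θ * 2 ^ L →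
    (∀ i, P i → i < 2 * L) → θ * 2 ^ L + 2 * R ≤ w → Cov (cc (p * θ) (q * θ)) P D lo w →
    ∃ lo' : ℕ, Cov (cc (p * θ) (q * θ)) (fun i => P i ∨ (2 * L + 1 ≤ i ∧ i < 2 * (L + R + 1))) D
      lo' (((p : ℝ) + q - 1 / 2) * (θ * 2 ^ (L + R + 1)))

def S_PAIR2 : Prop :=
  ∀ (p q u Y : ℕ) (θ : ℝ), 2 ≤ p → p < q → 1 ≤ u → p + q * Y = p * 2 ^ u → Y < 2 ^ u →
    1 ≤ θ → (∀ k n : ℕ, (2 : ℝ) ^ k * (p * θ) ≠ n) →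
    ∀ X G : ℕ, u + 1 ≤ G → ∃ j₁ j₂ t : ℕ, X ≤ j₁ ∧ j₁ + G ≤ j₂ ∧
      SS (cc (p * θ) (q * θ))
        (fun i => Rsv Y u j₁ i ∨ Rsv Y u j₂ i ∨ i = 2 * (j₂ + u + 1)) t ∧
      SS (cc (p * θ) (q * θ))
        (fun i => Rsv Y u j₁ i ∨ Rsv Y u j₂ i ∨ i = 2 * (j₂ + u + 1)) (t + 1)

def S_DYA : Prop :=
  ∀ (α β : ℝ) (k l A B : ℕ), 0 < α → 0 < β → (2 : ℝ) ^ k * α = A → (2 : ℝ) ^ l * β = B →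
    (∀ r : ℕ, ∃ s : Finset ℕ, (∀ x ∈ s, 0 < x ∧
        ((∃ k : ℕ, x = ⌊(2 : ℝ) ^ k * α⌋₊) ∨ (∃ k : ℕ, x = ⌊(2 : ℝ) ^ k * β⌋₊))) ∧
      (∑ x ∈ s, x) % Nat.gcd A B = r % Nat.gcd A B) →
    ∃ N₀ : ℕ, ∀ n : ℕ, N₀ ≤ n → ∃ s : Finset ℕ,
      (∀ x ∈ s, 0 < x ∧
        ((∃ k : ℕ, x = ⌊(2 : ℝ) ^ k * α⌋₊) ∨ (∃ k : ℕ, x = ⌊(2 : ℝ) ^ k * β⌋₊))) ∧
      ∑ x ∈ s, x = n

end Pool.Agent.Y793.Dy
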